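import Pool.Agent.Helper25.FN.Spec
import Mathlib.RingTheory.MvPolynomial.EulerIdentity

/-!
# Part WT1 of the swarm FN: the gradient of the homogeneous weight on the unit sphere
-/

set_option autoImplicit false

noncomputable section

open MeasureTheory
open scoped ContDiff ComplexConjugate

namespace Pool.Agent.Helper5.FN.WT1

open Pool.Agent.Helper25.FN

variable {n : ℕ}

lemma nm_sq (z : V n) : nm z ^ 2 = ∑ j, ‖z j‖ ^ 2 :=
  Real.sq_sqrt (Finset.sum_nonneg fun _ _ => sq_nonneg _)

lemma nm_nonneg (z : V n) : 0 ≤ nm z := Real.sqrt_nonneg _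

lemma norm_le_nm (z : V n) (j : Fin n) : ‖z j‖ ≤ nm z := by
  apply Real.le_sqrt_of_sq_le
  exact Finset.single_le_sum (f := fun j => ‖z j‖ ^ 2) (fun _ _ => sq_nonneg _)
    (Finset.mem_univ j)

lemma nm_pos {z : V n} (hz : z ≠ 0) : 0 < nm z := by
  obtain ⟨j, hj⟩ := Function.ne_iff.1 hz
  exact (norm_pos_iff.2 hj).trans_le (norm_le_nm z j)

lemma nm_smul {t : ℝ} (ht : 0 ≤ t) (z : V n) : nm (t • z) = t * nm z := by
  unfold nm
  simp only [Pi.smul_apply, norm_smul, mul_pow, ← Finset.mul_sum, Real.norm_eq_abs,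
    abs_of_nonneg ht]
  rw [Real.sqrt_mul (sq_nonneg t), Real.sqrt_sq ht]

lemma contDiff_S : ContDiff ℝ ∞ (fun z : V n => ∑ j, ‖z j‖ ^ 2) := by
  refine ContDiff.sum fun j _ => ?_
  exact (contDiff_apply ℝ ℂ j).norm_sq ℝ

lemma contDiffOn_nm : ContDiffOn ℝ ∞ (nm : V n → ℝ) {z | z ≠ 0} := by
  refine ContDiffOn.sqrt contDiff_S.contDiffOn fun z hz => ?_
  have := nm_pos hz
  rw [← nm_sq]; positivity

lemma contDiff_eval (q : Pol n) : ContDiff ℝ ∞ (fun z : V n => MvPolynomial.eval z q) := by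
  induction q using MvPolynomial.induction_on with
  | C a => simpa using contDiff_const
  | add p q hp hq => simpa using hp.add hq
  | mul_X p j hp =>
    simp only [map_mul, MvPolynomial.eval_X]
    exact hp.mul (contDiff_apply ℝ ℂ j)

lemma contDiffOn_Phom (P : Pol n) (B : ℝ) {s : V n → ℂ} (hs : ContDiff ℝ ∞ s) :
    ContDiffOn ℝ ∞ (Phom P B s) {z | z ≠ 0} := by
  have h1 : ContDiffOn ℝ ∞ (fun z : V n => (nm z)⁻¹ • z) {z | z ≠ 0} :=
    (contDiffOn_nm.inv fun z hz => (nm_pos hz).ne').smul contDiffOn_id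
  have h2 : ContDiffOn ℝ ∞ (fun z : V n => conj (s ((nm z)⁻¹ • z))) {z | z ≠ 0} :=
    Complex.conjCLE.contDiff.comp_contDiffOn (hs.comp_contDiffOn h1)
  have h3 : ContDiffOn ℝ ∞ (fun z : V n => pv P ((nm z)⁻¹ • z)) {z | z ≠ 0} :=
    (contDiff_eval (lead P)).comp_contDiffOn h1
  have h4 : ContDiffOn ℝ ∞ (fun z : V n => ((nm z : ℝ) : ℂ)) {z | z ≠ 0} :=
    Complex.ofRealCLM.contDiff.comp_contDiffOn contDiffOn_nm
  have h5 := Complex.reCLM.contDiff.comp_contDiffOn (h4.mul (h2.mul h3))
  exact (contDiffOn_const.mul contDiffOn_nm).add h5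

lemma Phom_smul (P : Pol n) (B : ℝ) (s : V n → ℂ) (z : V n) {t : ℝ} (ht : 0 < t) :
    Phom P B s (t • z) = t * Phom P B s z := by
  have h1 : (nm (t • z))⁻¹ • (t • z) = (nm z)⁻¹ • z := by
    rw [nm_smul ht.le, smul_smul, mul_inv, mul_comm t⁻¹, mul_assoc, inv_mul_cancel₀ ht.ne',
      mul_one]
  unfold Phom
  rw [h1, nm_smul ht.le]
  push_cast
  rw [mul_assoc (t : ℂ), Complex.re_ofReal_mul]
  ring

lemma hasDerivAt_eval (q : Pol n) {w : ℝ → V n} {w' : V n} {t : ℝ} (hw : HasDerivAt w w' t) :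
    HasDerivAt (fun t => MvPolynomial.eval (w t) q)
      (∑ j, MvPolynomial.eval (w t) (MvPolynomial.pderiv j q) * w' j) t := by
  induction q using MvPolynomial.induction_on with
  | C a => simpa using hasDerivAt_const t a
  | add p q hp hq =>
    have := hp.add hq
    simp only [map_add, add_mul, Finset.sum_add_distrib]
    exact this
  | mul_X p j hp =>
    have hj : HasDerivAt (fun t => w t j) (w' j) t := (hasDerivAt_pi.1 hw) j
    have h := hp.mul hj
    have e : ∑ i, MvPolynomial.eval (w t) (MvPolynomial.pderiv i (p * MvPolynomial.X j)) * w' i =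
        (∑ i, MvPolynomial.eval (w t) (MvPolynomial.pderiv i p) * w' i) * w t j +
          MvPolynomial.eval (w t) p * w' j := by
      have e1 : ∀ i, MvPolynomial.eval (w t) (MvPolynomial.pderiv i (p * MvPolynomial.X j)) * w' i
          = MvPolynomial.eval (w t) (MvPolynomial.pderiv i p) * w' i * w t j +
            (if i = j then MvPolynomial.eval (w t) p * w' i else 0) := by
        intro i
        rw [MvPolynomial.pderiv_mul, MvPolynomial.pderiv_X]
        by_cases h : i = j
        · subst h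
          simp
          ring
        · simp [h, Ne.symm h]
          ring
      simp only [e1, Finset.sum_add_distrib, Finset.sum_mul]
      simp
    rw [e]
    simp only [map_mul, MvPolynomial.eval_X]
    exact h

lemma euler (P : Pol n) (z : V n) :
    ∑ j, MvPolynomial.eval z (MvPolynomial.pderiv j (lead P)) * z j =
      (P.totalDegree : ℂ) * pv P z := by
  have h := (MvPolynomial.homogeneousComponent_isHomogeneous P.totalDegree
    (Pool.Agent.Helper25.FB.Inj.star P)).sum_X_mul_pderiv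
  have h2 := congrArg (MvPolynomial.eval z) h
  simp only [map_sum, map_mul, MvPolynomial.eval_X, nsmul_eq_mul, map_natCast] at h2
  unfold pv lead
  rw [← h2]
  exact Finset.sum_congr rfl fun j _ => mul_comm _ _

/-- the derivative of `Phom` at a point of the unit sphere -/
lemma fderiv_Phom (P : Pol n) (B : ℝ) {s : V n → ℂ} (hs : ContDiff ℝ ∞ s) {z : V n}
    (hz : nm z = 1) (v : V n) (ρ : ℝ) (hρ : ρ = ∑ j, (conj (z j) * v j).re) :
    fderiv ℝ (Phom P B s) z v = B * ρ +
      (conj (s z) * ∑ j, MvPolynomial.eval z (MvPolynomial.pderiv j (lead P)) * v j).re +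
      ((ρ * conj (s z) + conj (fderiv ℝ s z (v - ρ • z)) -
        ρ * P.totalDegree * conj (s z)) * pv P z).re := by
  have hz0 : z ≠ 0 := by
    rintro rfl
    have : nm (0 : V n) = 0 := by simp [nm]
    rw [this] at hz
    exact zero_ne_one hz
  have hγ : HasDerivAt (fun t : ℝ => z + t • v) v 0 := by
    have := ((hasDerivAt_id (0 : ℝ)).smul_const v).const_add z
    simpa using this
  have hγ0 : z + (0 : ℝ) • v = z := by simp
  have hS : HasDerivAt (fun t : ℝ => ∑ j, ‖(z + t • v) j‖ ^ 2) (2 * ρ) 0 := by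
    rw [hρ, Finset.mul_sum]
    refine HasDerivAt.fun_sum fun j _ => ?_
    have h1 := ((hasDerivAt_pi.1 hγ) j).norm_sq
    rw [hγ0, Complex.inner, mul_comm (v j)] at h1
    exact h1
  have hN : HasDerivAt (fun t : ℝ => nm (z + t • v)) ρ 0 := by
    have h1 : ∑ j, ‖(z + (0 : ℝ) • v) j‖ ^ 2 = 1 := by
      rw [hγ0, ← nm_sq, hz]; norm_num
    have h2 := hS.sqrt (by rw [h1]; norm_num)
    rw [h1, Real.sqrt_one] at h2
    have e : 2 * ρ / (2 * 1) = ρ := by ring
    rw [e] at h2
    exact h2
  have hN1 : nm (z + (0 : ℝ) • v) = 1 := by rw [hγ0, hz]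
  have hu : HasDerivAt (fun t : ℝ => (nm (z + t • v))⁻¹ • (z + t • v)) (v - ρ • z) 0 := by
    have h1 := hN.fun_inv (by rw [hN1]; norm_num)
    have h2 := h1.fun_smul hγ
    rw [hN1, hγ0] at h2
    refine h2.congr_deriv ?_
    simp only [inv_one, one_smul, one_pow, div_one, neg_smul]
    abel
  have hu0 : (nm (z + (0 : ℝ) • v))⁻¹ • (z + (0 : ℝ) • v) = z := by
    rw [hN1, hγ0]; simp
  have hsu : HasDerivAt (fun t : ℝ => s ((nm (z + t • v))⁻¹ • (z + t • v)))
      (fderiv ℝ s z (v - ρ • z)) 0 := by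
    have hd : HasFDerivAt s (fderiv ℝ s z) z :=
      (hs.differentiable (by simp) z).hasFDerivAt
    exact HasFDerivAt.comp_hasDerivAt_of_eq (0 : ℝ) hd hu hu0.symm
  have hcs : HasDerivAt (fun t : ℝ => conj (s ((nm (z + t • v))⁻¹ • (z + t • v))))
      (conj (fderiv ℝ s z (v - ρ • z))) 0 :=
    (Complex.conjCLE.toContinuousLinearMap.hasFDerivAt).comp_hasDerivAt (0 : ℝ) hsu
  have hpu : HasDerivAt (fun t : ℝ => pv P ((nm (z + t • v))⁻¹ • (z + t • v)))
      (∑ j, MvPolynomial.eval z (MvPolynomial.pderiv j (lead P)) * (v - ρ • z) j) 0 := by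
    have h1 := hasDerivAt_eval (lead P) hu
    rw [hu0] at h1
    exact h1
  have hNc : HasDerivAt (fun t : ℝ => ((nm (z + t • v) : ℝ) : ℂ)) (ρ : ℂ) 0 := hN.ofReal_comp
  have hprod := hNc.fun_mul (hcs.fun_mul hpu)
  rw [hu0, hN1] at hprod
  have hre := (Complex.reCLM.hasFDerivAt).comp_hasDerivAt (0 : ℝ) hprod
  have htot := (hN.const_mul B).add hre
  have hΦ : HasDerivAt (fun t : ℝ => Phom P B s (z + t • v)) (fderiv ℝ (Phom P B s) z v) 0 := by
    have hopen : IsOpen {z : V n | z ≠ 0} := isOpen_ne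
    have hd : HasFDerivAt (Phom P B s) (fderiv ℝ (Phom P B s) z) z :=
      (((contDiffOn_Phom P B hs).contDiffAt (hopen.mem_nhds hz0)).differentiableAt
        (by simp)).hasFDerivAt
    exact HasFDerivAt.comp_hasDerivAt_of_eq (0 : ℝ) hd hγ hγ0.symm
  have huniq := hΦ.unique htot
  rw [huniq]
  have hE : ∑ j, MvPolynomial.eval z (MvPolynomial.pderiv j (lead P)) * (v - ρ • z) j =
      ∑ j, MvPolynomial.eval z (MvPolynomial.pderiv j (lead P)) * v j -
        ρ * ((P.totalDegree : ℂ) * pv P z) := by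
    rw [← euler, Finset.mul_sum, ← Finset.sum_sub_distrib]
    refine Finset.sum_congr rfl fun j _ => ?_
    simp only [Pi.sub_apply, Pi.smul_apply, Complex.real_smul]
    ring
  rw [hE, Complex.reCLM_apply, add_assoc, ← Complex.add_re]
  congr 2
  push_cast
  ring

theorem main : S_WT1 := by
  intro n P K hK
  -- a bound of the leading form on the ball
  obtain ⟨M, hM⟩ : ∃ M : ℝ, ∀ z : V n, nm z = 1 → ‖pv P z‖ ≤ M := by
    have hcomp : IsCompact (Metric.closedBall (0 : V n) 1) := isCompact_closedBall _ _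
    obtain ⟨M, hM⟩ := hcomp.exists_bound_of_continuousOn
      (contDiff_eval (lead P)).continuous.continuousOn
    refine ⟨M, fun z hz => hM z ?_⟩
    rw [mem_closedBall_zero_iff, pi_norm_le_iff_of_nonneg zero_le_one]
    intro j
    exact (norm_le_nm z j).trans hz.le
  have hM0 : ∀ z : V n, nm z = 1 → 0 ≤ M := fun z hz => (norm_nonneg _).trans (hM z hz)
  set d : ℝ := (P.totalDegree : ℝ) with hd
  have hd0 : 0 ≤ d := Nat.cast_nonneg _
  set K1 : ℝ := 2 * ((3 + d) * K) with hK1
  have hK10 : 0 < K1 := by positivity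
  refine ⟨K * |M| + K * (d * |M|) + n * (K1 * |M|) + K1, by positivity, ?_⟩
  intro B s hs hsK hsD
  refine ⟨contDiffOn_Phom P B hs, fun z t ht => Phom_smul P B s z ht, ?_⟩
  intro z hz
  have hMz : ‖pv P z‖ ≤ |M| := (hM z hz).trans (le_abs_self M)
  have hz1 : ∀ j, ‖z j‖ ≤ 1 := fun j => (norm_le_nm z j).trans hz.le
  have hznorm : ‖z‖ ≤ 1 := by
    rw [pi_norm_le_iff_of_nonneg zero_le_one]; exact hz1
  -- the error term
  have hErr : ∀ (v : V n) (ρ : ℝ), ‖v‖ ≤ 1 → |ρ| ≤ 1 →
      |((ρ * conj (s z) + conj (fderiv ℝ s z (v - ρ • z)) -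
        ρ * P.totalDegree * conj (s z)) * pv P z).re| ≤ (3 + d) * K * ‖pv P z‖ := by
    intro v ρ hv hρ
    refine (Complex.abs_re_le_norm _).trans ?_
    rw [norm_mul]
    refine mul_le_mul_of_nonneg_right ?_ (norm_nonneg _)
    have a1 : ‖(ρ : ℂ) * conj (s z)‖ ≤ K := by
      rw [norm_mul, Complex.norm_real, RCLike.norm_conj, Real.norm_eq_abs]
      calc |ρ| * ‖s z‖ ≤ 1 * K := mul_le_mul hρ (hsK z) (norm_nonneg _) zero_le_one
        _ = K := one_mul K
    have a2 : ‖conj (fderiv ℝ s z (v - ρ • z))‖ ≤ 2 * K := by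
      rw [RCLike.norm_conj]
      refine (ContinuousLinearMap.le_opNorm _ _).trans ?_
      have h1 : ‖v - ρ • z‖ ≤ 2 := by
        refine (norm_sub_le _ _).trans ?_
        rw [norm_smul, Real.norm_eq_abs]
        have : |ρ| * ‖z‖ ≤ 1 * 1 := mul_le_mul hρ hznorm (norm_nonneg _) zero_le_one
        linarith
      calc ‖fderiv ℝ s z‖ * ‖v - ρ • z‖ ≤ K * 2 :=
            mul_le_mul (hsD z) h1 (norm_nonneg _) hK.le
        _ = 2 * K := mul_comm _ _
    have a3 : ‖(ρ : ℂ) * P.totalDegree * conj (s z)‖ ≤ d * K := by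
      rw [norm_mul, norm_mul, Complex.norm_real, RCLike.norm_conj, Real.norm_eq_abs,
        Complex.norm_natCast]
      have : |ρ| * d ≤ 1 * d := mul_le_mul_of_nonneg_right hρ hd0
      rw [one_mul] at this
      exact mul_le_mul this (hsK z) (norm_nonneg _) hd0
    calc ‖(ρ : ℂ) * conj (s z) + conj (fderiv ℝ s z (v - ρ • z)) -
          ρ * P.totalDegree * conj (s z)‖
        ≤ ‖(ρ : ℂ) * conj (s z) + conj (fderiv ℝ s z (v - ρ • z))‖ +
          ‖(ρ : ℂ) * P.totalDegree * conj (s z)‖ := norm_sub_le _ _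
      _ ≤ (‖(ρ : ℂ) * conj (s z)‖ + ‖conj (fderiv ℝ s z (v - ρ • z))‖) +
          ‖(ρ : ℂ) * P.totalDegree * conj (s z)‖ := by
          gcongr; exact norm_add_le _ _
      _ ≤ (K + 2 * K) + d * K := add_le_add (add_le_add a1 a2) a3
      _ = (3 + d) * K := by ring
  -- the gradient
  have hgr : ∀ j, ‖conj (gr (Phom P B s) z j) - ((B : ℂ) * z j + s z * cg P z j)‖ ≤
      K1 * ‖pv P z‖ := by
    intro j
    -- the gradient through the real derivative
    have hopen : IsOpen {z : V n | z ≠ 0} := isOpen_ne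
    have hz0 : z ≠ 0 := by
      rintro rfl
      have : nm (0 : V n) = 0 := by simp [nm]
      rw [this] at hz
      exact zero_ne_one hz
    have hdiff : DifferentiableAt ℝ (Phom P B s) z :=
      ((contDiffOn_Phom P B hs).contDiffAt (hopen.mem_nhds hz0)).differentiableAt (by simp)
    have hfd : ∀ v : V n, fderiv ℝ (fun y => (Phom P B s y : ℂ)) z v =
        ((fderiv ℝ (Phom P B s) z v : ℝ) : ℂ) := by
      intro v
      have h1 : HasFDerivAt (fun y => (Phom P B s y : ℂ))
          (Complex.ofRealCLM.comp (fderiv ℝ (Phom P B s) z)) z :=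
        Complex.ofRealCLM.hasFDerivAt.comp z hdiff.hasFDerivAt
      rw [h1.fderiv]
      rfl
    have hg : gr (Phom P B s) z j = (fderiv ℝ (Phom P B s) z (Pi.single j 1) : ℂ) -
        Complex.I * (fderiv ℝ (Phom P B s) z (Pi.single j Complex.I) : ℂ) := by
      unfold gr wd
      rw [hfd, hfd]
      ring
    set q : Fin n → ℂ := fun i => MvPolynomial.eval z (MvPolynomial.pderiv i (lead P)) with hq
    have hcg : cg P z j = conj (q j) := rfl
    have s1 : ∀ (F : Fin n → ℂ) (c : ℂ), ∑ i, F i * (Pi.single j c : V n) i = F j * c := by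
      intro F c
      rw [Finset.sum_eq_single j]
      · rw [Pi.single_eq_same]
      · intro b _ hb; rw [Pi.single_eq_of_ne hb, mul_zero]
      · intro h; exact absurd (Finset.mem_univ j) h
    have hρ1 : (z j).re = ∑ i, (conj (z i) * (Pi.single j 1 : V n) i).re := by
      rw [← Complex.re_sum, s1 (fun i => conj (z i))]
      simp
    have hρ2 : (z j).im = ∑ i, (conj (z i) * (Pi.single j Complex.I : V n) i).re := by
      rw [← Complex.re_sum, s1 (fun i => conj (z i))]
      simp
    have f1 := fderiv_Phom P B hs hz (Pi.single j 1) _ hρ1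
    have f2 := fderiv_Phom P B hs hz (Pi.single j Complex.I) _ hρ2
    rw [s1] at f1 f2
    have e1 := hErr (Pi.single j 1) (z j).re (by rw [Pi.norm_single]; simp)
      ((Complex.abs_re_le_norm _).trans (hz1 j))
    have e2 := hErr (Pi.single j Complex.I) (z j).im (by rw [Pi.norm_single]; simp)
      ((Complex.abs_im_le_norm _).trans (hz1 j))
    set R1 : ℝ := ((((z j).re : ℂ) * conj (s z) + conj (fderiv ℝ s z (Pi.single j 1 -
      (z j).re • z)) - (z j).re * P.totalDegree * conj (s z)) * pv P z).re with hR1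
    set R2 : ℝ := ((((z j).im : ℂ) * conj (s z) + conj (fderiv ℝ s z (Pi.single j Complex.I -
      (z j).im • z)) - (z j).im * P.totalDegree * conj (s z)) * pv P z).re with hR2
    have hmain : conj (gr (Phom P B s) z j) - ((B : ℂ) * z j + s z * cg P z j) =
        (R1 : ℂ) + Complex.I * (R2 : ℂ) := by
      rw [hg, f1, f2, hcg]
      apply Complex.ext
      · simp
        ring
      · simp
        ring
    rw [hmain]
    calc ‖(R1 : ℂ) + Complex.I * (R2 : ℂ)‖ ≤ ‖(R1 : ℂ)‖ + ‖Complex.I * (R2 : ℂ)‖ :=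
          norm_add_le _ _
      _ = |R1| + |R2| := by
          rw [norm_mul, Complex.norm_I, one_mul, Complex.norm_real, Complex.norm_real,
            Real.norm_eq_abs, Real.norm_eq_abs]
      _ ≤ (3 + d) * K * ‖pv P z‖ + (3 + d) * K * ‖pv P z‖ := add_le_add e1 e2
      _ = K1 * ‖pv P z‖ := by rw [hK1]; ring
  have hn0 : (0 : ℝ) ≤ n := Nat.cast_nonneg n
  have b1 : 0 ≤ K * |M| := by positivity
  have b2 : 0 ≤ K * (d * |M|) := by positivity
  have b3 : 0 ≤ (n : ℝ) * (K1 * |M|) := by positivity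
  refine ⟨?_, ?_, fun j => ?_⟩
  · have h1 : Phom P B s z - B = (conj (s z) * pv P z).re := by
      unfold Phom
      rw [hz]
      simp
    rw [h1]
    have h2 : |(conj (s z) * pv P z).re| ≤ K * |M| := by
      refine (Complex.abs_re_le_norm _).trans ?_
      rw [norm_mul, RCLike.norm_conj]
      exact mul_le_mul (hsK z) hMz (norm_nonneg _) hK.le
    linarith
  · -- the radial derivative
    set r : Fin n → ℂ := fun j => conj (gr (Phom P B s) z j) -
      ((B : ℂ) * z j + s z * cg P z j) with hr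
    have e1 : ∑ j, z j * gr (Phom P B s) z j = (B : ℂ) * ((nm z ^ 2 : ℝ) : ℂ) +
        conj (s z) * ((P.totalDegree : ℂ) * pv P z) + ∑ j, z j * conj (r j) := by
      rw [← euler, nm_sq]
      push_cast
      rw [Finset.mul_sum, Finset.mul_sum, ← Finset.sum_add_distrib, ← Finset.sum_add_distrib]
      refine Finset.sum_congr rfl fun j _ => ?_
      have h1 : gr (Phom P B s) z j = conj (r j) + (B * conj (z j) +
          conj (s z) * MvPolynomial.eval z (MvPolynomial.pderiv j (lead P))) := by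
        simp only [hr, cg, map_sub, map_add, map_mul, Complex.conj_conj, Complex.conj_ofReal]
        ring
      rw [h1]
      have h2 : z j * conj (z j) = ((‖z j‖ : ℝ) : ℂ) ^ 2 := by
        rw [Complex.mul_conj, Complex.normSq_eq_norm_sq]; push_cast; rfl
      calc z j * (conj (r j) + (B * conj (z j) +
            conj (s z) * MvPolynomial.eval z (MvPolynomial.pderiv j (lead P))))
          = B * (z j * conj (z j)) +
            conj (s z) * (MvPolynomial.eval z (MvPolynomial.pderiv j (lead P)) * z j) +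
              z j * conj (r j) := by ring
        _ = _ := by rw [h2]
    rw [e1]
    have h3 : ((B : ℂ) * ((nm z ^ 2 : ℝ) : ℂ)).im = 0 := by
      rw [← Complex.ofReal_mul, Complex.ofReal_im]
    rw [Complex.add_im, Complex.add_im, h3, zero_add]
    have h4 : |(conj (s z) * ((P.totalDegree : ℂ) * pv P z)).im| ≤ K * (d * |M|) := by
      refine (Complex.abs_im_le_norm _).trans ?_
      rw [norm_mul, norm_mul, RCLike.norm_conj, Complex.norm_natCast]
      exact mul_le_mul (hsK z) (mul_le_mul_of_nonneg_left hMz hd0) (by positivity) hK.le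
    have h5 : |(∑ j, z j * conj (r j)).im| ≤ n * (K1 * |M|) := by
      refine (Complex.abs_im_le_norm _).trans ?_
      refine (norm_sum_le _ _).trans ?_
      calc ∑ j, ‖z j * conj (r j)‖ ≤ ∑ _j : Fin n, K1 * |M| := by
            refine Finset.sum_le_sum fun j _ => ?_
            rw [norm_mul, RCLike.norm_conj]
            calc ‖z j‖ * ‖r j‖ ≤ 1 * (K1 * |M|) := by
                  refine mul_le_mul (hz1 j) ?_ (norm_nonneg _) zero_le_one
                  exact (hgr j).trans (mul_le_mul_of_nonneg_left hMz hK10.le)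
              _ = _ := one_mul _
        _ = n * (K1 * |M|) := by simp
    have h6 := abs_add_le (conj (s z) * ((P.totalDegree : ℂ) * pv P z)).im
      (∑ j, z j * conj (r j)).im
    linarith
  · refine (hgr j).trans ?_
    refine mul_le_mul_of_nonneg_right ?_ (norm_nonneg _)
    linarith

end Pool.Agent.Helper5.FN.WT1

end
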